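import Pool.Agent.Helper11.LE.Goals3
import Pool.Agent.Helper42.RD.EXA

/-!
# Project LE (MP_fc6b1e_nt): packet LE-ADD, the state `(R ∪ Z', α', a b)`
-/

namespace Pool.Agent.Helper8.LE

open NumberField Polynomial Module IsDedekindDomain Pool.Agent.Helper51.SigLeo
open Pool.Agent.Helper51.RP Pool.Agent.Helper42.RD Pool.Agent.Helper11.LE
open Pool.Agent.Helper40.RS (bel absNorm_free lies)
open Pool.Agent.Helper13.RD (ram_free eq_of_val)
open Pool.Agent.Helper40.RD (bel_of_above)

section base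

variable {K : Type} [Field K] [NumberField K]

theorem base_free (w : HeightOneSpectrum (𝓞 K)) : FreeP K w := by
  intro g _
  exact AlgEquiv.ext fun x => g.commutes x

theorem base_conj {w w' : HeightOneSpectrum (𝓞 K)} (h : ConjP K w' w) : w' = w := by
  obtain ⟨g, hg⟩ := h
  refine eq_of_val fun y => ?_
  have h1 : g y = y := g.commutes y
  rw [← hg y, h1]

/-- The residue field of a prime not above `p` of a field which contains the `p`-th roots of unity. -/
theorem dvd_norm {p : ℕ} [Fact p.Prime] {ε : K} (hε : IsPrimitiveRoot ε p)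
    (Q : HeightOneSpectrum (𝓞 K)) (hQ : Q.valuation K (p : K) = 1) :
    p ∣ Ideal.absNorm Q.asIdeal - 1 := by
  have hp : p.Prime := Fact.out
  let e : 𝓞 K := ⟨ε, hε.isIntegral hp.pos⟩
  have hepow : e ^ p = 1 := by
    apply RingOfIntegers.ext
    show ε ^ p = 1
    exact hε.pow_eq_one
  have hene : e ≠ 1 := by
    intro h
    apply hε.ne_one hp.one_lt
    exact congrArg (fun z : 𝓞 K => (z : K)) h
  have hpQ : (p : 𝓞 K) ∉ Q.asIdeal := (natCast_notMem_iff Q p).2 hQ
  have hQm : Q.asIdeal.IsMaximal := Q.isMaximal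
  let _ : Field (𝓞 K ⧸ Q.asIdeal) := Ideal.Quotient.field _
  have h1 : (Ideal.Quotient.mk Q.asIdeal e) ^ p = 1 := by
    rw [← map_pow, hepow, map_one]
  have h2 : Ideal.Quotient.mk Q.asIdeal e ≠ 1 := by
    intro h
    have h3 : e - 1 ∈ Q.asIdeal := by
      rw [← Ideal.Quotient.eq_zero_iff_mem, map_sub, h, map_one, sub_self]
    exact hpQ (Ideal.mem_of_dvd _ (sub_one_dvd hepow hene) h3)
  have h0 : Ideal.Quotient.mk Q.asIdeal e ≠ 0 := by
    intro h
    rw [h, zero_pow hp.ne_zero] at h1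
    exact zero_ne_one h1
  have h4 : orderOf (Units.mk0 _ h0) = p := by
    refine orderOf_eq_prime ?_ ?_
    · apply Units.ext
      rw [Units.val_pow_eq_pow_val, Units.val_mk0, Units.val_one]
      exact h1
    · intro h
      apply h2
      have h5 := congrArg (fun u : (𝓞 K ⧸ Q.asIdeal)ˣ => (u : 𝓞 K ⧸ Q.asIdeal)) h
      exact h5
  have hcard : Nat.card (𝓞 K ⧸ Q.asIdeal)ˣ = Ideal.absNorm Q.asIdeal - 1 := by
    rw [Nat.card_units, Ideal.absNorm_apply, Submodule.cardQuot_apply]
  rw [← hcard, ← h4]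
  exact orderOf_dvd_natCard _

end base

section galois

variable {K K₁ : Type} [Field K] [NumberField K] [Field K₁] [NumberField K₁] [Algebra K K₁]
  [IsGalois K K₁]

theorem free_val (W : HeightOneSpectrum (𝓞 K₁)) (hf : FreeP K W) (x : K) :
    W.valuation K₁ (algebraMap K K₁ x) = (bel K W).valuation K x := by
  have := lies (K := K) W
  rw [← (bel K W).valuation_liesOver K₁ W, ram_free W hf, pow_one]

theorem free_ord (W : HeightOneSpectrum (𝓞 K₁)) (hf : FreeP K W) (x : K) :
    ordv W (algebraMap K K₁ x) = ordv (bel K W) x := by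
  unfold ordv
  rw [free_val W hf]

/-- The residue field does not grow at a prime with trivial decomposition group. -/
theorem free_res (W : HeightOneSpectrum (𝓞 K₁)) (hf : FreeP K W) (y : 𝓞 K₁) :
    ∃ x : 𝓞 K, y - algebraMap (𝓞 K) (𝓞 K₁) x ∈ W.asIdeal := by
  have hl := lies (K := K) W
  have hqm : (bel K W).asIdeal.IsMaximal := (bel K W).isMaximal
  have hQm : W.asIdeal.IsMaximal := W.isMaximal
  let _ : Field (𝓞 K ⧸ (bel K W).asIdeal) := Ideal.Quotient.field _
  let _ : Field (𝓞 K₁ ⧸ W.asIdeal) := Ideal.Quotient.field _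
  have hfin : Finite (𝓞 K₁ ⧸ W.asIdeal) := inferInstance
  have hinj : Function.Injective
      (algebraMap (𝓞 K ⧸ (bel K W).asIdeal) (𝓞 K₁ ⧸ W.asIdeal)) :=
    (algebraMap (𝓞 K ⧸ (bel K W).asIdeal) (𝓞 K₁ ⧸ W.asIdeal)).injective
  have hcard : Nat.card (𝓞 K₁ ⧸ W.asIdeal) ≤ Nat.card (𝓞 K ⧸ (bel K W).asIdeal) := by
    have h1 := absNorm_free (K := K) W hf
    rw [Ideal.absNorm_apply, Submodule.cardQuot_apply, Ideal.absNorm_apply,
      Submodule.cardQuot_apply] at h1
    exact h1.le
  have hbij := hinj.bijective_of_nat_card_le hcard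
  obtain ⟨z, hz⟩ := hbij.surjective (Ideal.Quotient.mk W.asIdeal y)
  obtain ⟨x, hx⟩ := Ideal.Quotient.mk_surjective z
  refine ⟨x, ?_⟩
  rw [← Ideal.Quotient.eq_zero_iff_mem, map_sub, sub_eq_zero, ← hz, ← hx]
  rfl

/-- The choice of the uniformizer. -/
theorem exists_c {p : ℕ} [Fact p.Prime] (W : HeightOneSpectrum (𝓞 K₁)) (hf : FreeP K W) (z : K₁)
    (hz0 : z ≠ 0) (hz : ¬ (p : ℤ) ∣ ordv W z) :
    ∃ c : K, ordv (bel K W) c = 1 ∧ ∃ j : ℕ, LocPow p W (z * algebraMap K K₁ c ^ j) := by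
  have hp : p.Prime := Fact.out
  obtain ⟨c₀, hc₀⟩ := (bel K W).valuation_exists_uniformizer K
  have hord0 : ordv (bel K W) c₀ = 1 := by
    unfold ordv
    rw [hc₀, WithZero.log_exp, neg_neg]
  have hc₀0 : c₀ ≠ 0 := by
    rintro rfl
    rw [map_zero] at hc₀
    exact WithZero.exp_ne_zero hc₀.symm
  set C₀ : K₁ := algebraMap K K₁ c₀ with hC₀
  have hC₀0 : C₀ ≠ 0 := by
    rw [hC₀]
    exact (map_ne_zero (algebraMap K K₁)).2 hc₀0
  have hordC : ordv W C₀ = 1 := by rw [hC₀, free_ord W hf, hord0]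
  -- `t n = 1 + p k`
  obtain ⟨t, k, htk⟩ : ∃ (t : ℕ) (k : ℤ), (t : ℤ) * ordv W z = 1 + p * k := by
    have hcop : IsCoprime (p : ℤ) (ordv W z) :=
      (Nat.prime_iff_prime_int.1 hp).irreducible.coprime_iff_not_dvd.2 hz
    obtain ⟨a, b, hab⟩ := hcop
    refine ⟨(b + p * |b|).toNat, |b| * ordv W z - a, ?_⟩
    have h0 : 0 ≤ b + p * |b| := by
      have h1 : (1 : ℤ) ≤ p := by exact_mod_cast hp.one_le
      have h2 : -|b| ≤ b := neg_abs_le b
      nlinarith [abs_nonneg b]
    rw [Int.toNat_of_nonneg h0]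
    linear_combination hab
  -- `t t' = 1 + p l`
  have htp : t.Coprime p := by
    rw [Nat.coprime_comm, hp.coprime_iff_not_dvd]
    rintro ⟨m, rfl⟩
    have h1 : (p : ℤ) ∣ 1 := by
      have h2 : (1 : ℤ) = p * (m * ordv W z - k) := by
        push_cast at htk
        linear_combination -htk
      exact ⟨_, h2⟩
    have h2 := Int.natCast_dvd_natCast.1 (by exact_mod_cast h1 : ((p : ℕ) : ℤ) ∣ ((1 : ℕ) : ℤ))
    exact hp.one_lt.ne' (Nat.dvd_one.1 h2)
  obtain ⟨t', l, htl⟩ : ∃ t' l : ℕ, t * t' = 1 + p * l := by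
    obtain ⟨m, hm⟩ := Nat.exists_mul_mod_eq_one_of_coprime htp hp.one_lt
    refine ⟨m, t * m / p, ?_⟩
    have := Nat.mod_add_div (t * m) p
    rw [hm.2] at this
    exact this.symm
  set u : K₁ := z ^ t * C₀ ^ (-(1 + (p : ℤ) * k)) with hu
  have hu0 : u ≠ 0 := mul_ne_zero (pow_ne_zero _ hz0) (zpow_ne_zero _ hC₀0)
  have hvu : W.valuation K₁ u = 1 := by
    rw [← ordv_eq_zero_iff W hu0, hu, ordv_mul W (pow_ne_zero _ hz0) (zpow_ne_zero _ hC₀0),
      ordv_pow, ordv_zpow W hC₀0, hordC, htk]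
    ring
  obtain ⟨s, hs, hsu⟩ := exists_int_close W hvu
  obtain ⟨r, hr⟩ := free_res W hf s
  have hrW : algebraMap (𝓞 K) (𝓞 K₁) r ∉ W.asIdeal := by
    intro h
    apply hs
    have h1 := W.asIdeal.add_mem hr h
    rwa [sub_add_cancel] at h1
  have hsr := val_div_of_sub_mem W hrW hr
  have hvr := val_of_notMem W hrW
  set ρ : K₁ := algebraMap K K₁ (r : K) with hρ
  have hρ' : ((algebraMap (𝓞 K) (𝓞 K₁) r : 𝓞 K₁) : K₁) = ρ := rfl
  rw [hρ'] at hsr hvr
  have hρ0 : ρ ≠ 0 := by intro h; rw [h, map_zero] at hvr; exact zero_ne_one hvr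
  have hr0 : (r : K) ≠ 0 := by
    intro h
    apply hρ0
    rw [hρ, h, map_zero]
  have hs0 : (s : K₁) ≠ 0 := by
    have := val_of_notMem W hs
    intro h
    rw [h, map_zero] at this
    exact zero_ne_one this
  refine ⟨c₀ * r, ?_, (p - 1) * t', ?_⟩
  · have h1 : ordv (bel K W) (r : K) = 0 := by
      rw [← free_ord W hf, ← hρ]
      exact (ordv_eq_zero_iff W hρ0).2 hvr
    rw [ordv_mul _ hc₀0 hr0, hord0, h1, add_zero]
  · -- `u / ρ ≡ 1`
    have h1 : W.valuation K₁ (u / ρ - 1) < 1 := by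
      have h2 := val_mul_sub W (val_inv_sub W hsu) hsr
      have h3 : ((s : K₁) / u)⁻¹ * ((s : K₁) / ρ) = u / ρ := by
        field_simp
      rwa [h3] at h2
    have h2 : LocPow p W ((u / ρ) ^ t') := locPow_pow W (locPow_of_sub W h1) t'
    set D : K₁ := C₀ * ρ with hD
    have hD0 : D ≠ 0 := mul_ne_zero hC₀0 hρ0
    have hmap : algebraMap K K₁ (c₀ * (r : K)) = D := by rw [map_mul]
    rw [hmap]
    set y : K₁ := z ^ l * (C₀ ^ (-k)) ^ t' * (D ^ t')⁻¹ with hy
    have hy0 : y ≠ 0 := mul_ne_zero (mul_ne_zero (pow_ne_zero _ hz0)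
      (pow_ne_zero _ (zpow_ne_zero _ hC₀0))) (inv_ne_zero (pow_ne_zero _ hD0))
    rw [← locPow_mul_pth W hy0]
    have h3 : z * D ^ ((p - 1) * t') * y ^ p = (u / ρ) ^ t' := by
      have e1 : D ^ ((p - 1) * t') * ((D ^ t')⁻¹) ^ p = (D⁻¹) ^ t' := by
        have e2 : (D ^ t') ^ p = D ^ ((p - 1) * t') * D ^ t' := by
          rw [← pow_mul, ← pow_add]
          congr 1
          obtain ⟨m, rfl⟩ : ∃ m, p = m + 1 := ⟨p - 1, (Nat.sub_add_cancel hp.one_le).symm⟩
          rw [Nat.add_sub_cancel]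
          ring
        rw [inv_pow, e2, inv_pow]
        field_simp
      have e2 : z * (z ^ l) ^ p = (z ^ t) ^ t' := by
        rw [← pow_mul, ← pow_mul, htl, pow_add, pow_one, mul_comm l p]
      have e3 : ((C₀ ^ (-k)) ^ t') ^ p * (D⁻¹) ^ t' =
          (C₀ ^ (-(1 + (p : ℤ) * k))) ^ t' * (ρ⁻¹) ^ t' := by
        have e4 : C₀ ^ (-(1 + (p : ℤ) * k)) = C₀⁻¹ * (C₀ ^ (-k)) ^ p := by
          rw [← zpow_natCast (C₀ ^ (-k)) p, ← zpow_mul, ← zpow_neg_one, ← zpow_add₀ hC₀0]
          congr 1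
          ring
        rw [e4, hD, mul_inv, mul_pow, mul_pow, ← pow_mul, ← pow_mul, mul_comm t' p]
        ring
      calc z * D ^ ((p - 1) * t') * y ^ p =
          (z * (z ^ l) ^ p) * (((C₀ ^ (-k)) ^ t') ^ p *
            (D ^ ((p - 1) * t') * ((D ^ t')⁻¹) ^ p)) := by
            rw [hy, mul_pow, mul_pow]
            ring
        _ = (z ^ t) ^ t' * ((C₀ ^ (-(1 + (p : ℤ) * k))) ^ t' * (ρ⁻¹) ^ t') := by
            rw [e1, e2, e3]
        _ = (u / ρ) ^ t' := by
            rw [hu, div_eq_mul_inv, mul_pow, mul_pow]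
            ring
    rw [h3]
    exact h2

end galois

/-- The product of two elements of type `ω`. -/
theorem om_mul {p : ℕ} {K K₁ : Type} [Field K] [Field K₁] [Algebra K K₁] {ε a b : K₁}
    (hp : p.Prime) (hε : IsPrimitiveRoot ε p) (ha : OmType p K ε a) (hb : OmType p K ε b) :
    OmType p K ε (a * b) := by
  intro τ
  obtain ⟨n, c, hn, hc⟩ := ha τ
  obtain ⟨n', c', hn', hc'⟩ := hb τ
  have hmod : n ≡ n' [MOD p] := by
    have h1 : ε ^ n = ε ^ n' := by rw [← hn, hn']
    have h2 : IsUnit ε := hε.isUnit hp.ne_zero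
    have h3 := pow_eq_pow_iff_modEq (x := h2.unit) (m := n) (n := n')
    have h4 : orderOf h2.unit = p := by
      rw [← orderOf_units, IsUnit.unit_spec]
      exact hε.eq_orderOf.symm
    rw [h4] at h3
    refine (h3.1 ?_).symm
    apply Units.ext
    rw [Units.val_pow_eq_pow_val, Units.val_pow_eq_pow_val, IsUnit.unit_spec]
    first
      | exact h1
      | exact h1.symm
  rcases le_total n n' with hle | hle
  · obtain ⟨k, hk⟩ := (Nat.modEq_iff_dvd' hle).1 hmod
    have hk' : n' = n + p * k := by omega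
    refine ⟨n, c * c' * b ^ k, hn, ?_⟩
    rw [map_mul, hc, hc', hk', pow_add, pow_mul]
    ring
  · obtain ⟨k, hk⟩ := (Nat.modEq_iff_dvd' hle).1 hmod.symm
    have hk' : n = n' + p * k := by omega
    refine ⟨n', c * c' * a ^ k, hn', ?_⟩
    rw [map_mul, hc, hc', hk', pow_add, pow_mul]
    ring

theorem l_add : Pool.Agent.Helper11.LE.L_ADD := by
  classical
  intro p _ K K₁ _ _ _ _ _ ε hcyc R al a hst b Z' hb0 hb1 hom hZ hval
  have hp : p.Prime := Fact.out
  have hgal := hcyc.gal
  have hdat := hst.dat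
  have ha0 : (a : K₁) ≠ 0 := RingOfIntegers.coe_ne_zero_iff.2 hst.ne
  have hb0' : (b : K₁) ≠ 0 := RingOfIntegers.coe_ne_zero_iff.2 hb0
  -- the primes above
  choose Wf hWf using fun w : HeightOneSpectrum (𝓞 K) => exists_bel (M₁ := K₁) w
  have hab : ∀ w, Above (Wf w) w := by
    intro w
    have h1 := above_bel (M := K) (Wf w)
    rwa [hWf] at h1
  have hsign : ((-1 : K₁) ^ (p - 1)) ≠ 0 := pow_ne_zero _ (neg_ne_zero.2 one_ne_zero)
  have hordsign : ∀ W : HeightOneSpectrum (𝓞 K₁), ordv W ((-1 : K₁) ^ (p - 1)) = 0 := by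
    intro W
    unfold ordv
    rw [map_pow, Valuation.map_neg, map_one, one_pow, WithZero.log_one, neg_zero]
  have hord : ∀ W : HeightOneSpectrum (𝓞 K₁),
      ordv W ((-1) ^ (p - 1) * ((a * b : 𝓞 K₁) : K₁)) = ordv W (a : K₁) + ordv W (b : K₁) := by
    intro W
    have h1 : ((a * b : 𝓞 K₁) : K₁) = (a : K₁) * b := rfl
    rw [h1, ordv_mul W hsign (mul_ne_zero ha0 hb0'), hordsign, zero_add, ordv_mul W ha0 hb0']
  have hord' : ∀ W : HeightOneSpectrum (𝓞 K₁),
      ordv W ((a * b : 𝓞 K₁) : K₁) = ordv W (a : K₁) + ordv W (b : K₁) := by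
    intro W
    have h1 : ((a * b : 𝓞 K₁) : K₁) = (a : K₁) * b := rfl
    rw [h1, ordv_mul W ha0 hb0']
  -- the choice of the uniformizers
  have hex : ∀ w : HeightOneSpectrum (𝓞 K), ∃ c : K, w ∈ Z' → ordv w c = 1 ∧
      ∃ j : ℕ, LocPow p (Wf w) ((-1) ^ (p - 1) * ((a * b : 𝓞 K₁) : K₁) *
        algebraMap K K₁ c ^ j) := by
    intro w
    by_cases hw : w ∈ Z'
    · obtain ⟨hfree, hnd⟩ := (hval (Wf w) w (hab w)).1 hw
      have hda : (p : ℤ) ∣ ordv (Wf w) (a : K₁) :=
        hst.mat.free (Wf w) w (hab w) (base_free w) (hZ w hw).1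
      have hz : ¬ (p : ℤ) ∣ ordv (Wf w) ((-1) ^ (p - 1) * ((a * b : 𝓞 K₁) : K₁)) := by
        rw [hord]
        intro h
        exact hnd ((Int.dvd_add_right hda).1 h)
      have hz0 : (-1) ^ (p - 1) * ((a * b : 𝓞 K₁) : K₁) ≠ 0 :=
        mul_ne_zero hsign (mul_ne_zero ha0 hb0')
      obtain ⟨c, hc, hj⟩ := exists_c (K := K) (Wf w) hfree _ hz0 hz
      rw [hWf] at hc
      exact ⟨c, fun _ => ⟨hc, hj⟩⟩
    · exact ⟨1, fun h => absurd h hw⟩
  choose cf hcf using hex
  have hcf' : ∀ w ∈ Z', ordv w (cf w) = 1 := fun w hw => (hcf w hw).1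
  refine ⟨fun w => if w ∈ Z' then cf w else al w, ?_, ?_⟩
  · constructor
    · -- the datum
      constructor
      · exact hdat.fin.union Z'.finite_toSet
      · intro w hw w' hw'
        rw [base_conj hw']
        exact hw
      · intro w _
        exact base_free w
      · rintro w (hw | hw)
        · exact hdat.copr w hw
        · exact (hZ w (Finset.mem_coe.1 hw)).2
      · rintro w (hw | hw)
        · exact hdat.norm w hw
        · have hw' := Finset.mem_coe.1 hw
          have hfree := ((hval (Wf w) w (hab w)).1 hw').1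
          have h1 : (Wf w).valuation K₁ (p : K₁) = 1 := by
            have h2 := free_val (K := K) (Wf w) hfree (p : K)
            rw [map_natCast, hWf] at h2
            rw [h2]
            exact (hZ w hw').2
          have h2 := dvd_norm hcyc.prim (Wf w) h1
          rw [absNorm_free (K := K) (Wf w) hfree, hWf] at h2
          exact h2
      · intro w hw
        show ordv w (if w ∈ Z' then cf w else al w) = 1
        by_cases h : w ∈ Z'
        · rw [if_pos h]
          exact hcf' w h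
        · rw [if_neg h]
          have h2 : w ∈ R := hw.resolve_right (fun h3 => h (Finset.mem_coe.1 h3))
          exact hdat.unif w h2
      · intro w _ w' hw'
        rw [base_conj hw']
    · exact mul_ne_zero hst.ne hb0
    · have h1 : a * b - 1 = a * (b - 1) + (a - 1) := by ring
      rw [h1]
      refine dvd_add ?_ hst.adm
      have h2 := Ideal.mem_span_singleton.1 hb1
      exact ((dvd_mul_right _ a).trans h2).mul_left _
    · exact om_mul hp hcyc.prim hst.om hom
    · constructor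
      · intro W w hWw hfree hw
        rw [Set.mem_union, not_or] at hw
        rw [hord']
        refine dvd_add (hst.mat.free W w hWw hfree hw.1) ?_
        exact (hval W w hWw).2 (fun h => hw.2 (Finset.mem_coe.2 h))
      · intro w hw
        by_cases hwZ : w ∈ Z'
        · obtain ⟨hfree, hnd⟩ := (hval (Wf w) w (hab w)).1 hwZ
          have hda : (p : ℤ) ∣ ordv (Wf w) (a : K₁) :=
            hst.mat.free (Wf w) w (hab w) (base_free w) (hZ w hwZ).1
          refine ⟨Wf w, hab w, ?_, ?_⟩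
          · rw [hord']
            intro h
            exact hnd ((Int.dvd_add_right hda).1 h)
          · obtain ⟨j, hj⟩ := (hcf w hwZ).2
            refine ⟨j, ?_⟩
            show LocPow p (Wf w) ((-1) ^ (p - 1) * ((a * b : 𝓞 K₁) : K₁) *
              (algebraMap K K₁ (if w ∈ Z' then cf w else al w)) ^ j)
            rw [if_pos hwZ]
            exact hj
        · have hwR : w ∈ R := hw.resolve_right (fun h3 => hwZ (Finset.mem_coe.1 h3))
          obtain ⟨W, hWw, hnd, j, hj⟩ := hst.mat.ram w hwR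
          have haW : a ∈ W.asIdeal := by
            by_contra hno
            apply hnd
            have h1 := val_of_notMem W hno
            have h2 : ordv W (a : K₁) = 0 := (ordv_eq_zero_iff W ha0).2 h1
            rw [h2]
            exact dvd_zero _
          have hbW : W.valuation K₁ ((b : K₁) - 1) < 1 := by
            have h1 : b - 1 ∈ W.asIdeal := by
              have h2 := Ideal.mem_span_singleton.1 hb1
              exact Ideal.mem_of_dvd _ ((dvd_mul_left a _).trans h2) haW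
            exact (W.valuation_lt_one_iff_mem (K := K₁) (b - 1)).2 h1
          have hbord : ordv W (b : K₁) = 0 :=
            (ordv_eq_zero_iff W hb0').2 (val_eq_one_of_sub W hbW)
          refine ⟨W, hWw, ?_, j, ?_⟩
          · rw [hord', hbord, add_zero]
            exact hnd
          · show LocPow p W ((-1) ^ (p - 1) * ((a * b : 𝓞 K₁) : K₁) *
              (algebraMap K K₁ (if w ∈ Z' then cf w else al w)) ^ j)
            rw [if_neg hwZ]
            have h1 : (-1) ^ (p - 1) * ((a * b : 𝓞 K₁) : K₁) * (algebraMap K K₁ (al w)) ^ j =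
                (b : K₁) * ((-1) ^ (p - 1) * (a : K₁) * (algebraMap K K₁ (al w)) ^ j) := by
              have h2 : ((a * b : 𝓞 K₁) : K₁) = (a : K₁) * b := rfl
              rw [h2]
              ring
            rw [h1]
            exact locPow_mul W (locPow_of_sub W hbW) hj
  · intro w hw
    show (if w ∈ Z' then cf w else al w) = al w
    rw [if_neg]
    intro h
    exact (hZ w h).1 hw

end Pool.Agent.Helper8.LE
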